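import Pool.Agent.H36.ENR.Stmts2

/-!
# Row NFM of the board `enr` (part 2)
-/

set_option autoImplicit false

namespace Pool.ENR

open Pool.Agent.H81.ENG Pool.Agent.H55.NEU

namespace NFM

theorem prod_periodic {M : Type} [CommMonoid M] (f : ℕ → M) (m : ℕ) (hf : ∀ l, f (l + m) = f l)
    (n : ℕ) : ∏ l ∈ Finset.range (m * n), f l = (∏ l ∈ Finset.range m, f l) ^ n := by
  have hk : ∀ n l, f (m * n + l) = f l := by
    intro n
    induction n with
    | zero => intro l; simp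
    | succ n ih =>
      intro l
      have h1 : m * (n + 1) + l = m * n + l + m := by ring
      rw [h1, hf, ih]
  induction n with
  | zero => simp
  | succ n ih =>
    rw [Nat.mul_succ, Finset.prod_range_add, ih, pow_succ]
    congr 1
    exact Finset.prod_congr rfl (fun l _ => hk n l)

variable {F : Type} [Field F]

theorem ee_uu (c : Fˣ) (φ : F ≃+* F) (x : F) : ee c φ (pr (uu x)) = pr (uu (c * φ x)) := by
  rw [ee_pr]
  congr 1
  apply sl_ext
  · change φ 1 = 1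
    rw [map_one]
  · rfl
  · change ((c⁻¹ : Fˣ) : F) * φ 0 = 0
    rw [map_zero, mul_zero]
  · change φ 1 = 1
    rw [map_one]

theorem base (b : F) (c : Fˣ) (φ : F ≃+* F) (x : F) :
    (MulAut.conj (pr (uu b)) * ee c φ) (pr (uu x)) = pr (uu (c * φ x)) := by
  rw [MulAut.mul_apply, ee_uu, MulAut.conj_apply, ← map_mul, ← map_inv, ← map_mul, uu_inv, uu_mul,
    uu_mul]
  congr 2
  ring

theorem iter (b : F) (c : Fˣ) (φ : F ≃+* F) (i : ℕ) (x : F) :
    ((MulAut.conj (pr (uu b)) * ee c φ) ^ i) (pr (uu x)) =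
      pr (uu ((∏ l ∈ Finset.range i, (φ ^ l) (c : F)) * (φ ^ i) x)) := by
  induction i generalizing x with
  | zero => simp
  | succ i ih =>
    rw [pow_succ, MulAut.mul_apply, base, ih, Finset.prod_range_succ, pow_succ, map_mul, mul_assoc]
    rfl

end NFM

open NFM in
theorem nfm_thm (hTRI : TRIStmt) (hH9M : H9MStmt) : NFMStmt := by
  intro F _ _ p N j _ _ σ hσ hU hj
  have hp : p.Prime := Fact.out
  obtain ⟨b, c, hbc⟩ := hTRI F σ hU
  set φ := fld σ with hφ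
  -- the product over `p ^ N` terms
  have h1 : ∏ l ∈ Finset.range (p ^ N), (φ ^ l) (c : F) = 1 := by
    have h2 := iter b c φ (p ^ N) 1
    rw [← hbc, hσ, MulAut.one_apply, map_one, mul_one] at h2
    exact (pr_uu_inj h2).symm
  have hφN : φ ^ (p ^ N) = 1 := by
    rw [hφ, ← map_pow, hσ, map_one]
  have hjN : j ≤ N := by
    have h3 : p ^ j ∣ p ^ N := by
      rw [← hj]
      exact orderOf_dvd_of_pow_eq_one hφN
    exact (Nat.pow_dvd_pow_iff_le_right hp.one_lt).1 h3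
  have hper : ∀ l, (φ ^ (l + p ^ j)) (c : F) = (φ ^ l) (c : F) := by
    intro l
    rw [pow_add, ← hj, pow_orderOf_eq_one, mul_one]
  have h4 : (∏ l ∈ Finset.range (p ^ j), (φ ^ l) (c : F)) ^ (p ^ (N - j)) = 1 := by
    rw [← prod_periodic (fun l => (φ ^ l) (c : F)) (p ^ j) hper, ← pow_add,
      Nat.add_sub_cancel' hjN]
    exact h1
  have h5 : ∏ l ∈ Finset.range (p ^ j), (φ ^ l) (c : F) = 1 := by
    have h6 : (∏ l ∈ Finset.range (p ^ j), (φ ^ l) (c : F) - 1) ^ (p ^ (N - j)) = 0 := by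
      rw [sub_pow_char_pow, h4, one_pow, sub_self]
    exact sub_eq_zero.1 (pow_eq_zero_iff (pow_pos hp.pos _).ne' |>.1 h6)
  obtain ⟨z, hz0, hz⟩ := hH9M F φ (p ^ j) c hj (pow_pos hp.pos _) h5
  set w : Fˣ := Units.mk0 z hz0 with hw
  have hinv : (ee w⁻¹ (1 : F ≃+* F))⁻¹ = ee w 1 := by
    rw [inv_eq_iff_mul_eq_one, ee_mul]
    have h7 : w⁻¹ * Units.map ((1 : F ≃+* F) : F →* F) w = 1 := by
      apply Units.ext
      change ((w⁻¹ : Fˣ) : F) * (w : F) = 1
      exact Units.inv_mul w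
    rw [h7, mul_one, ee_one_one]
  refine ⟨ee w⁻¹ 1, ((w⁻¹ : Fˣ) : F) * b, ?_⟩
  have h8 : ee w⁻¹ (1 : F ≃+* F) * ee c φ * ee w 1 = ee 1 φ := by
    rw [ee_mul, ee_mul, one_mul, mul_one]
    congr 1
    apply Units.ext
    change ((w⁻¹ : Fˣ) : F) * (c : F) * φ z = 1
    rw [mul_assoc, hz]
    exact Units.inv_mul w
  calc ee w⁻¹ 1 * σ * (ee w⁻¹ 1)⁻¹
      = ee w⁻¹ 1 * (MulAut.conj (pr (uu b)) * ee c φ) * ee w 1 := by rw [hinv, ← hbc]
    _ = (ee w⁻¹ 1 * MulAut.conj (pr (uu b))) * ee c φ * ee w 1 := by simp only [mul_assoc]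
    _ = MulAut.conj (ee w⁻¹ 1 (pr (uu b))) * (ee w⁻¹ 1 * ee c φ * ee w 1) := by
        rw [conj_comm]; simp only [mul_assoc]
    _ = MulAut.conj (pr (uu (((w⁻¹ : Fˣ) : F) * b))) * ee 1 φ := by
        rw [h8, ee_uu]
        rfl

end Pool.ENR
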